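import Pool.Agent.X139.MMNu

set_option autoImplicit false

open MeasureTheory ProbabilityTheory Pool.Agent.X139.MM

namespace Pool.Agent.Results.MP_32afb7_pr.OddDegreesPercolate

/-- every vertex has exactly the prescribed degree -/
def ExactDegrees {s : Set ℝ} (D : ℝ → ℕ) (G : SimpleGraph s) : Prop :=
  ∀ x : s, (G.neighborSet x).encard = (D x : ℕ∞)

/-- `x` has an incident edge of length greater than `r` -/
def HasLongerEdge {s : Set ℝ} (G : SimpleGraph s) (x : s) (r : ℝ) : Prop :=
  ∃ z : s, G.Adj x z ∧ r < dist x z

/-- for any two distinct points, either they are joined, or at least one of them has no incident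
edge longer than their distance -/
def Stable {s : Set ℝ} (G : SimpleGraph s) : Prop :=
  ∀ x y : s, x ≠ y → G.Adj x y ∨ ¬ HasLongerEdge G x (dist x y) ∨ ¬ HasLongerEdge G y (dist x y)

lemma to_stable {s : Set ℝ} {D : ℝ → ℕ} {G : SimpleGraph s} (h1 : ExactDegrees D G) (h2 : Stable G) :
    IsMultiMatching D G ∧ IsStable D G := by
  refine ⟨fun x => (h1 x).le, ?_⟩
  intro x y hne hna ⟨hx, hy⟩
  have key : ∀ a b : s, Willing D G a b → HasLongerEdge G a (dist a b) := by
    intro a b h
    rcases h with h | h
    · rw [h1 a] at h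
      exact absurd h (lt_irrefl _)
    · exact h
  rcases h2 x y hne with h | h | h
  · exact hna h
  · exact h (key x y hx)
  · rw [dist_comm] at h
    exact h (key y x hy)

lemma of_stable {s : Set ℝ} {D : ℝ → ℕ} {G : SimpleGraph s} (h : IsStable D G) : Stable G := by
  intro x y hne
  by_cases ha : G.Adj x y
  · exact Or.inl ha
  · right
    by_contra hcon
    push Not at hcon
    refine h x y hne ha ⟨Or.inr hcon.1, Or.inr ?_⟩
    rw [dist_comm y x]
    exact hcon.2

/-- There is a probability measure `μ` on the positive integers with `μ({1}) > 0`, so not supported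
on the even integers, such that for the unit intensity Poisson process on the line with independent
degrees of law `μ`, almost surely a stable multi-matching exists and every stable multi-matching has
an infinite component. -/
theorem result :
    ∃ μ : Measure ℕ, IsProbabilityMeasure μ ∧ μ {0} = 0 ∧ 0 < μ {1} ∧
      ∀ (Ω : Type) (_ : MeasurableSpace Ω) (P : Measure Ω), IsProbabilityMeasure P →
      ∀ (S : Ω → Set ℝ) (D : Ω → ℝ → ℕ), IsMarkedPoisson P volume μ S D →
      ∀ᵐ ω ∂P,
        (∃ G : SimpleGraph (S ω), ExactDegrees (D ω) G ∧ Stable G) ∧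
        ∀ G : SimpleGraph (S ω), ExactDegrees (D ω) G → Stable G → HasInfiniteComponent G := by
  refine ⟨mix (1 / 2) nu, mix_prob (1 / 2) (by norm_num) (by norm_num) nu, ?_, ?_, ?_⟩
  · unfold mix
    rw [Measure.add_apply, Measure.smul_apply, Measure.smul_apply]
    have h1 : nu {0} = 0 := measure_mono_null (by intro k hk; simp at hk; simp [hk]) nu_lt_two
    rw [h1, Measure.dirac_apply' _ (MeasurableSet.of_discrete)]
    simp
  · unfold mix
    rw [Measure.add_apply, Measure.smul_apply, Measure.smul_apply,
      Measure.dirac_apply' _ (MeasurableSet.of_discrete)]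
    simp
  · intro Ω mΩ P hP S D h
    have hdim : 1 ≤ Module.finrank ℝ ℝ := by simp
    filter_upwards [percolation volume hdim (1 / 2) (by norm_num) (by norm_num) h] with ω hω
    constructor
    · obtain ⟨G, hG1, hG2⟩ := hω.1
      exact ⟨G, (hω.2 G hG1 hG2).1, of_stable hG2⟩
    · intro G hG1 hG2
      obtain ⟨h3, h4⟩ := to_stable hG1 hG2
      exact (hω.2 G h3 h4).2

end Pool.Agent.Results.MP_32afb7_pr.OddDegreesPercolate
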